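import Pool.Agent.H87.Lib.Helper937.Dya3

/-!
# Luzin's axiom and compact continuous images of `C_p(K)`
-/

set_option autoImplicit false

open Set Topology Filter Cardinal

namespace Pool.Agent.V1120.Luzin

open Pool.Agent.Helper937.Dya Pool.Agent.Helper937.Fact

/-- A compact Hausdorff space with at most `𝔠` points has at most `𝔠` continuous functions. -/
theorem mk_C_le (K : Type) [TopologicalSpace K] [CompactSpace K] [T2Space K] (hK : #K ≤ 𝔠) :
    #C(K, ℝ) ≤ 𝔠 := by
  classical
  have hsep : ∀ p : K × K, ∃ φ : C(K, ℝ), p.1 ≠ p.2 → φ p.1 ≠ φ p.2 := by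
    intro p
    by_cases h : p.1 = p.2
    · exact ⟨0, fun h' => absurd h h'⟩
    · obtain ⟨φ, h0, h1, _⟩ := exists_continuous_zero_one_of_isClosed
        (isClosed_singleton (x := p.1)) (isClosed_singleton (x := p.2))
        (disjoint_singleton.2 h)
      refine ⟨φ, fun _ => ?_⟩
      rw [h0 rfl, h1 rfl]
      exact zero_ne_one
  choose sep hsep using hsep
  let A : Subalgebra ℝ C(K, ℝ) := Algebra.adjoin ℝ (range sep)
  have hA : A.SeparatesPoints := by
    intro x y hxy
    exact ⟨sep (x, y), ⟨sep (x, y), Algebra.subset_adjoin ⟨(x, y), rfl⟩, rfl⟩, hsep (x, y) hxy⟩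
  have hcard : #A ≤ 𝔠 := by
    refine (Algebra.cardinalMk_adjoin_le ℝ (range sep)).trans ?_
    refine max_le (max_le (le_of_eq mk_real) ?_) aleph0_le_continuum
    refine mk_range_le.trans ?_
    rw [mk_prod, lift_id]
    exact (mul_le_mul' hK hK).trans (by rw [continuum_mul_self])
  have htop := ContinuousMap.subalgebra_topologicalClosure_eq_top_of_separatesPoints A hA
  have hcl : ∀ g : C(K, ℝ), ∃ u : ℕ → A, Tendsto (fun n => (u n : C(K, ℝ))) atTop (𝓝 g) := by
    intro g
    have h1 : g ∈ closure (A : Set C(K, ℝ)) := by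
      rw [← Subalgebra.topologicalClosure_coe, htop]
      trivial
    obtain ⟨u, hu, hut⟩ := mem_closure_iff_seq_limit.1 h1
    exact ⟨fun n => ⟨u n, hu n⟩, hut⟩
  choose u hu using hcl
  have hinj : Function.Injective u := by
    intro g g' h
    have h1 := hu g
    rw [h] at h1
    exact tendsto_nhds_unique h1 (hu g')
  refine (mk_le_of_injective hinj).trans ?_
  rw [← power_def, mk_nat]
  exact (power_le_power_right hcard).trans (by rw [continuum_power_aleph0])

/-- Metrizability of compact images of `C_p(X)` when closures of sets of size at most `ℵ₁` carry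
fewer than `2^ℵ₁` continuous functions. -/
theorem main (X : Type) [TopologicalSpace X]
    [CompactSpace X] [T2Space X] (hX : ∀ A : Set X, #A ≤ ℵ₁ → #C(closure A, ℝ) < 2 ^ ℵ₁)
    (Y : Type) [TopologicalSpace Y] [CompactSpace Y] [T2Space Y] (φ : Cp X → Y)
    (hφ : Continuous φ) (hs : Function.Surjective φ) : TopologicalSpace.MetrizableSpace Y := by
  classical
  let e : Cp X → X → ℝ := fun f => f.1
  have hd : DenseRange e := denseRange_Cp X
  have he : IsInducing e := IsInducing.subtypeVal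
  by_cases hg : ∃ A : Set X, A.Countable ∧ Good e φ A
  · obtain ⟨A, hA, hgood⟩ := hg
    exact metrizable_of_good e φ he hφ hs A hA hgood
  exfalso
  obtain ⟨J, hJ, hsep, hpat⟩ := dichotomy e φ hd hg
  -- Urysohn functions
  have hur : ∀ p ∈ J, ∃ (f : C(Y, ℝ)) (A : Set X), A.Countable ∧
      EqOn f 0 (Cl e φ p.1 p.2.1) ∧ EqOn f 1 (Cl e φ p.1 p.2.2) ∧
      ∀ (s : Cp X) (U : Set ℝ), IsOpen U → f (φ s) ∈ U →
        ∃ (G : Finset X) (b : X → BB), (G : Set X) ⊆ A ∧ e s ∈ Box G b ∧
          ∀ z : Cp X, e z ∈ Box G b → f (φ z) ∈ U := by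
    intro p hp
    obtain ⟨f, h1, h2, h3⟩ := exists_continuous_zero_one_of_isClosed
      (s := Cl e φ p.1 p.2.1) (t := Cl e φ p.1 p.2.2) isClosed_closure isClosed_closure (hsep p hp)
    have hK : CTight (Set.Icc (0:ℝ) 1) := by
      intro A x hx
      obtain ⟨s, hs, hs2⟩ := mem_closure_iff_seq_limit.mp hx
      refine ⟨range s, range_subset_iff.mpr hs, countable_range s, ?_⟩
      exact mem_closure_of_tendsto hs2 (Filter.Eventually.of_forall fun n => mem_range_self n)
    let ψ : Cp X → Set.Icc (0:ℝ) 1 := fun s => ⟨f (φ s), h3 (φ s)⟩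
    have hψ : Continuous ψ := (f.continuous.comp hφ).subtype_mk _
    obtain ⟨A, hA, hfac⟩ := factor e ψ he hd hK hψ
    refine ⟨f, A, hA, h1, h2, fun s U hU hsU => ?_⟩
    obtain ⟨G, b, hG, hb, himg⟩ := hfac s (Subtype.val ⁻¹' U) (hU.preimage continuous_subtype_val) hsU
    exact ⟨G, b, hG, hb, fun z hz => himg z hz⟩
  choose! f A hAc hf0 hf1 hfac using hur
  have hcard : #W1 ≤ #J := by
    rw [mk_W1]
    have : ℵ₀ < #J := by
      rw [← not_le, Cardinal.le_aleph0_iff_set_countable]
      exact hJ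
    rw [← Cardinal.succ_aleph0]
    exact Order.succ_le_of_lt this
  obtain ⟨q⟩ : Nonempty (W1 ↪ J) := hcard
  let A' : Set X := ⋃ w : W1, A (q w).1
  have hA' : #A' ≤ ℵ₁ := by
    refine (Cardinal.mk_iUnion_le_sum_mk).trans ?_
    refine (Cardinal.sum_le_sum _ (fun _ => ℵ₀) (fun w =>
      Cardinal.le_aleph0_iff_set_countable.mpr (hAc _ (q w).2))).trans ?_
    rw [Cardinal.sum_const', mk_W1]
    exact (mul_le_mul' le_rfl Cardinal.aleph0_lt_aleph_one.le).trans
      (Cardinal.mul_eq_self (Cardinal.aleph0_le_aleph 1)).le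
  have hC := hX A' hA'
  -- a function for each pattern
  have hk : ∀ B : Set W1, ∃ g : Cp X, ∀ j : W1,
      (j ∈ B → φ g ∈ Cl e φ (q j).1.1 (q j).1.2.2) ∧
      (j ∉ B → φ g ∈ Cl e φ (q j).1.1 (q j).1.2.1) := by
    intro B
    obtain ⟨k, hk⟩ := hpat {p | ∃ j, j ∈ B ∧ p = (q j).1}
    obtain ⟨g, rfl⟩ := hs k
    refine ⟨g, fun j => ⟨fun hj => (hk _ (q j).2).1 ⟨j, hj, rfl⟩, fun hj => ?_⟩⟩
    refine (hk _ (q j).2).2 ?_
    rintro ⟨j', hj', heq⟩
    have h1 := q.injective (Subtype.ext heq)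
    subst h1
    exact hj hj'
  choose g hg using hk
  let r : Set W1 → C(closure A', ℝ) := fun B =>
    ⟨fun x => (g B).1 x.1, (g B).2.comp continuous_subtype_val⟩
  have hr : Function.Injective r := by
    -- the pattern is determined by the restriction
    have key : ∀ B B' : Set W1, r B = r B' → ∀ j ∈ B, j ∈ B' := by
      intro B B' h j hj
      by_contra hj'
      have h1 : f (q j) (φ (g B)) = 1 := hf1 _ (q j).2 ((hg B j).1 hj)
      have h0 : f (q j) (φ (g B')) = 0 := hf0 _ (q j).2 ((hg B' j).2 hj')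
      obtain ⟨G, b, hG, hb, himg⟩ := hfac _ (q j).2 (g B) (Ioi (1/2 : ℝ)) isOpen_Ioi
        (by rw [h1]; simp only [mem_Ioi]; norm_num)
      have hb' : e (g B') ∈ Box G b := by
        intro t ht
        have ht' : t ∈ closure A' :=
          subset_closure (mem_iUnion.2 ⟨j, hG (Finset.mem_coe.2 ht)⟩)
        have h2 : (g B).1 t = (g B').1 t :=
          congrArg (fun F : C(closure A', ℝ) => F ⟨t, ht'⟩) h
        have h3 := hb t ht
        change (g B').1 t ∈ (b t : Set ℝ)
        rw [← h2]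
        exact h3
      have h4 := himg (g B') hb'
      rw [h0] at h4
      simp only [mem_Ioi] at h4
      norm_num at h4
    intro B B' h
    ext j
    exact ⟨key B B' h j, key B' B h.symm j⟩
  have h5 : #(Set W1) < 2 ^ ℵ₁ := (mk_le_of_injective hr).trans_lt hC
  rw [mk_set, mk_W1] at h5
  exact lt_irrefl _ h5

end Pool.Agent.V1120.Luzin
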